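import Pool.Agent.H29.FE.Main
import Pool.Agent.H29.LE.Dep

/-!
Independence, at `p = 1/2`, of the crossing event of the forked channel and of the differences of the
anisotropies.
-/

set_option autoImplicit false

namespace Pool.Agent.H29.FE

open Pool.Agent.H988R2.Perc hiding X
open MeasureTheory Finset Filter Topology unitInterval ProbabilityTheory
open Pool.Agent.H863R4
open Pool.Agent.H29.LE (sqE lc ly lc_sqE ly_sqE sqE_lc sgE DG sv1 pX pX_mem pX_not InvX percP_congr
  indepX_all zS zS_ev)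
open Pool.Agent.H981R2.TP.PL (rtg_mono)
open Q292.Env (percP pHG Nondeg hlf hlf_val symm_val perc_eq_percP)
open Pool.Agent.NH38.Fork (FCross FAdj ECross)

/-- the columns of the squares of the three parts -/
noncomputable def colsF (a m b : ℕ) (l : Fin 3) : Finset ℤ :=
  if l = 0 then Finset.Ico (-(a:ℤ)) (m + b) else if l = 1 then Finset.Ico (-(a:ℤ)) 0
    else Finset.Ico (m:ℤ) (m + b)

/-- the even layer of the double layer -/
def lowF (l : Fin 3) (n : ℕ) : ℤ := if l = 0 then -(2 * (n:ℤ)) - 2 else 2 * n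

/-- the edges of the double layer -/
noncomputable def TF (a m b : ℕ) (i : Fin 3 × ℕ) : Finset Edge :=
  (colsF a m b i.1 ×ˢ ({lowF i.1 i.2, lowF i.1 i.2 + 1} : Finset ℤ)).image fun t => sqE t.1 t.2

theorem mem_TF {a m b : ℕ} {i : Fin 3 × ℕ} {e : Edge} : e ∈ TF a m b i ↔
    lc e ∈ colsF a m b i.1 ∧ (ly e = lowF i.1 i.2 ∨ ly e = lowF i.1 i.2 + 1) := by
  unfold TF
  simp only [Finset.mem_image, Finset.mem_product, Finset.mem_insert, Finset.mem_singleton]
  constructor
  · rintro ⟨t, ⟨h1, h2⟩, rfl⟩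
    rw [lc_sqE, ly_sqE]
    exact ⟨h1, h2⟩
  · rintro ⟨h1, h2⟩
    exact ⟨(lc e, ly e), ⟨h1, h2⟩, sqE_lc e⟩

theorem TF_disj {m : ℕ} (hm : 1 ≤ m) (a b : ℕ) (i j : Fin 3 × ℕ) (h : i ≠ j) :
    Disjoint (TF a m b i) (TF a m b j) := by
  rw [Finset.disjoint_left]
  intro e he he'
  rw [mem_TF] at he he'
  apply h
  obtain ⟨l, n⟩ := i
  obtain ⟨l', n'⟩ := j
  obtain ⟨h1, h2⟩ := he
  obtain ⟨h3, h4⟩ := he'
  unfold colsF at h1 h3
  unfold lowF at h2 h4
  fin_cases l <;> fin_cases l' <;> simp at h1 h2 h3 h4 ⊢ <;> omega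

/-- the sign of an edge: `+` for horizontal edges of even layers and vertical edges of odd layers -/
def sF (e : Edge) : Bool := if ly e % 2 = 0 then !e.2.2 else e.2.2

theorem DG_TF (a m b : ℕ) (ω : Conf) (i : Fin 3 × ℕ) : DG (TF a m b) sF ω i =
    ∑ j ∈ colsF a m b i.1,
      (sgE ω (sqE j (lowF i.1 i.2)) - sgE ω (sqE j (lowF i.1 i.2 + 1))) := by
  unfold DG TF
  rw [Finset.sum_image, Finset.sum_product]
  · refine Finset.sum_congr rfl fun j _ => ?_
    rw [Finset.sum_pair (by omega)]
    have heven : lowF i.1 i.2 % 2 = 0 := by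
      unfold lowF
      split_ifs <;> omega
    have hodd : ¬ (lowF i.1 i.2 + 1) % 2 = 0 := by omega
    have s1 : sF (sqE j (lowF i.1 i.2)) = !(sqE j (lowF i.1 i.2)).2.2 := by
      unfold sF
      rw [ly_sqE, if_pos heven]
    have s2 : sF (sqE j (lowF i.1 i.2 + 1)) = (sqE j (lowF i.1 i.2 + 1)).2.2 := by
      unfold sF
      rw [ly_sqE, if_neg hodd]
    unfold sv1 sgE
    rw [s1, s2]
    cases ω (sqE j (lowF i.1 i.2)) <;> cases ω (sqE j (lowF i.1 i.2 + 1)) <;>
      cases (sqE j (lowF i.1 i.2)).2.2 <;> cases (sqE j (lowF i.1 i.2 + 1)).2.2 <;> simp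
  · rintro ⟨j, s⟩ _ ⟨j', s'⟩ _ h
    have h1 := congrArg lc h
    have h2 := congrArg ly h
    simp only at h1 h2
    rw [lc_sqE, lc_sqE] at h1
    rw [ly_sqE, ly_sqE] at h2
    exact Prod.ext h1 h2

/-! ### the event depends only on the edges of the channel -/

theorem fcross_dep (a m b : ℕ) (ω ω' : Conf)
    (h : ∀ e ∈ {e : Edge | ∃ i, e ∈ TF a m b i}, ω e = ω' e)
    (hω : ω ∈ FCross a m b) : ω' ∈ FCross a m b := by
  have key : ∀ e : Edge, -(a:ℤ) ≤ lc e → lc e < m + b → (ly e ≤ -1 ∨ lc e ≤ -1 ∨ (m:ℤ) ≤ lc e) →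
      ω e = ω' e := by
    intro e h1 h2 h3
    apply h
    by_cases c1 : ly e ≤ -1
    · refine ⟨(0, ((-ly e - 1) / 2).toNat), ?_⟩
      rw [mem_TF]
      unfold colsF lowF
      simp only [if_true, Finset.mem_Ico]
      omega
    · by_cases c2 : lc e ≤ -1
      · refine ⟨(1, (ly e / 2).toNat), ?_⟩
        rw [mem_TF]
        unfold colsF lowF
        simp only [Fin.isValue, one_ne_zero, if_false, if_true, Finset.mem_Ico]
        omega
      · refine ⟨(2, (ly e / 2).toNat), ?_⟩
        rw [mem_TF]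
        unfold colsF lowF
        simp only [Fin.isValue, Fin.reduceEq, if_false, Finset.mem_Ico]
        omega
  obtain ⟨x, y, hx1, hx2, hy, hr⟩ := hω
  refine ⟨x, y, hx1, hx2, hy, rtg_mono (fun c d hab => ?_) hr⟩
  obtain ⟨h1, h3, h4, h5, h6, h2⟩ := hab
  push_cast at h4 h6
  refine ⟨?_, h3, by push_cast; exact h4, h5, by push_cast; exact h6, h2⟩
  obtain ⟨a1, a2⟩ := c
  obtain ⟨b1, b2⟩ := d
  simp only at h2 h3 h4 h5 h6
  rcases h1 with ⟨g1, g2⟩ | ⟨g1, g2⟩ | ⟨g1, g2⟩ | ⟨g1, g2⟩
  · simp only [Prod.mk.injEq] at g1 g2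
    left
    refine ⟨by simp only [Prod.mk.injEq]; exact g1, ?_⟩
    simp only
    rw [← key (a1, a2, false) (by unfold lc; simp; omega) (by unfold lc; simp; omega)
      (by unfold lc ly; simp; omega)]
    exact g2
  · simp only [Prod.mk.injEq] at g1 g2
    right; left
    refine ⟨by simp only [Prod.mk.injEq]; exact g1, ?_⟩
    simp only
    rw [← key (b1, b2, false) (by unfold lc; simp; omega) (by unfold lc; simp; omega)
      (by unfold lc ly; simp; omega)]
    exact g2
  · simp only [Prod.mk.injEq] at g1 g2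
    right; right; left
    refine ⟨by simp only [Prod.mk.injEq]; exact g1, ?_⟩
    simp only
    rw [← key (a1, a2, true) (by unfold lc; simp; omega) (by unfold lc; simp; omega)
      (by unfold lc ly; simp; omega)]
    exact g2
  · simp only [Prod.mk.injEq] at g1 g2
    right; right; right
    refine ⟨by simp only [Prod.mk.injEq]; exact g1, ?_⟩
    simp only
    rw [← key (b1, b2, true) (by unfold lc; simp; omega) (by unfold lc; simp; omega)
      (by unfold lc ly; simp; omega)]
    exact g2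

theorem measurableSet_fcross {a m b : ℕ} (ha : Odd a) (hm : Odd m) (hb : Odd b) :
    MeasurableSet (FCross a m b) := by
  obtain ⟨k, rfl⟩ := hm
  obtain ⟨l, hl⟩ := id ha
  rw [fcross_preimage hl k b]
  refine MeasurableSet.preimage (measurableSet_ecross k ha hb) ?_
  exact measurable_pi_lambda _ fun i => measurable_pi_apply _

/-! ### the environments -/

/-- the value of the layer `s` -/
noncomputable def vF (z : I) (s : ℤ) : I := if s % 2 = 0 then z else σ z

noncomputable def hF (S : Finset (Fin 3 × ℕ)) (x : Fin 3 × ℕ → I) (s : ℤ) : I :=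
  if s ≤ -1 then vF (zS S x (0, ((-s - 1) / 2).toNat)) s else vF (zS S x (1, (s / 2).toNat)) s

noncomputable def gF (S : Finset (Fin 3 × ℕ)) (x : Fin 3 × ℕ → I) (s : ℤ) : I :=
  vF (zS S x (2, (s / 2).toNat)) s

theorem vF_hlf (s : ℤ) : ((vF hlf s : I) : ℝ) = 1/2 := by
  unfold vF
  split_ifs
  · exact hlf_val
  · rw [symm_val, hlf_val]; norm_num

theorem nondeg_S (S : Finset (Fin 3 × ℕ)) (x : Fin 3 × ℕ → I) : Nondeg (hF S x) (gF S x) := by
  refine ⟨?_, ?_, ?_, ?_, ?_⟩
  · intro n
    unfold hF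
    by_cases hn : n ≤ -1
    · rw [if_pos (by omega), if_pos (by omega)]
      have e1 : (-(2 * n + 1) - 1) / 2 = -n - 1 := by omega
      have e2 : (-(2 * n) - 1) / 2 = -n - 1 := by omega
      rw [e1, e2]
      unfold vF
      rw [if_neg (by omega), if_pos (by omega)]
    · rw [if_neg (by omega), if_neg (by omega)]
      have e1 : (2 * n + 1) / 2 = n := by omega
      have e2 : (2 * n) / 2 = n := by omega
      rw [e1, e2]
      unfold vF
      rw [if_neg (by omega), if_pos (by omega)]
  · intro n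
    unfold gF
    have e1 : (2 * n + 1) / 2 = n := by omega
    have e2 : (2 * n) / 2 = n := by omega
    rw [e1, e2]
    unfold vF
    rw [if_neg (by omega), if_pos (by omega)]
  · obtain ⟨N, hN⟩ := zS_ev S x 1
    refine ⟨1/2, by norm_num, Eventually.frequently ?_⟩
    filter_upwards [eventually_ge_atTop (N+1)] with n hn
    unfold hF
    rw [if_neg (by omega)]
    have e1 : ((2 * (n:ℤ)) / 2).toNat = n := by omega
    rw [e1, hN n (by omega), vF_hlf]
    norm_num
  · obtain ⟨N, hN⟩ := zS_ev S x 2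
    refine ⟨1/2, by norm_num, Eventually.frequently ?_⟩
    filter_upwards [eventually_ge_atTop (N+1)] with n hn
    unfold gF
    have e1 : ((2 * (n:ℤ)) / 2).toNat = n := by omega
    rw [e1, hN n (by omega), vF_hlf]
    norm_num
  · obtain ⟨N, hN⟩ := zS_ev S x 0
    refine ⟨1/2, by norm_num, Eventually.frequently ?_⟩
    filter_upwards [eventually_ge_atTop (N+1)] with n hn
    unfold hF
    rw [if_pos (by omega)]
    have e1 : ((-(-(2 * (n:ℤ))) - 1) / 2).toNat = n - 1 := by omega
    rw [e1, hN (n-1) (by omega), vF_hlf]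
    norm_num

theorem pX_eqF {m : ℕ} (hm : 1 ≤ m) (a b : ℕ) (S : Finset (Fin 3 × ℕ)) (x : Fin 3 × ℕ → I)
    (e : Edge) (he : e ∈ {e : Edge | ∃ i, e ∈ TF a m b i}) :
    pX (TF a m b) sF S x e = pHG (hF S x) (gF S x) e := by
  obtain ⟨i, hi⟩ := he
  -- the left side
  have h1 : pX (TF a m b) sF S x e = if sF e = true then zS S x i else σ (zS S x i) := by
    by_cases hS' : i ∈ S
    · rw [pX_mem (TF_disj hm a b) sF S x hS' hi]
      unfold zS
      rw [if_pos hS']
    · rw [pX_not]
      · unfold zS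
        rw [if_neg hS']
        split_ifs
        · rfl
        · apply Subtype.ext
          rw [symm_val, hlf_val]
          norm_num
      · rintro ⟨j, hj, hj'⟩
        by_cases hij : i = j
        · rw [hij] at hS'; exact hS' hj
        · exact Finset.disjoint_left.1 (TF_disj hm a b i j hij) hi hj'
  -- the right side
  have h2 : pHG (hF S x) (gF S x) e =
      if e.2.2 = true then σ (vF (zS S x i) (ly e)) else vF (zS S x i) (ly e) := by
    have hx : (if 0 ≤ e.1 + e.2.1 ∧ 1 ≤ e.1 - e.2.1 then gF S x (e.1 + e.2.1)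
        else hF S x (e.1 + e.2.1)) = vF (zS S x i) (ly e) := by
      rw [mem_TF] at hi
      obtain ⟨l, n⟩ := i
      obtain ⟨g1, g2⟩ := hi
      unfold colsF at g1
      unfold lowF at g2
      have hlc : lc e = e.1 - e.2.1 ∨ lc e = e.1 - e.2.1 - 1 := by
        unfold lc
        split_ifs
        · exact Or.inr rfl
        · exact Or.inl rfl
      change (if 0 ≤ ly e ∧ 1 ≤ e.1 - e.2.1 then gF S x (ly e) else hF S x (ly e)) = _
      fin_cases l
      · simp at g1 g2
        rw [if_neg (by omega)]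
        unfold hF
        rw [if_pos (by omega)]
        congr 3
        omega
      · simp at g1 g2
        rw [if_neg (by omega)]
        unfold hF
        rw [if_neg (by omega)]
        congr 3
        omega
      · simp at g1 g2
        rw [if_pos (by omega)]
        unfold gF
        congr 3
        omega
    unfold pHG
    simp only
    rw [hx]
  rw [h1, h2]
  unfold sF vF
  by_cases hl : ly e % 2 = 0
  · rw [if_pos hl, if_pos hl]
    cases e.2.2 <;> simp
  · rw [if_neg hl, if_neg hl]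
    cases e.2.2 <;> simp

theorem inv_fcross {a m b : ℕ} (ha : Odd a) (hm : Odd m) (hb : Odd b) :
    InvX (TF a m b) sF (FCross a m b) := by
  intro S x
  rw [percP_congr {e : Edge | ∃ i, e ∈ TF a m b i} (measurableSet_fcross ha hm hb)
    (fcross_dep a m b) (pX_eqF hm.pos a b S x), fcrossP_eq (nondeg_S S x) ha hm hb]

/-- **exact independence** -/
theorem fcross_indep {a m b : ℕ} (ha : Odd a) (hm : Odd m) (hb : Odd b)
    (B : Set (Fin 3 × ℕ → ℤ)) (hB : MeasurableSet B) :
    perc.real (FCross a m b ∩ {ω | (fun i => DG (TF a m b) sF ω i) ∈ B}) =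
      perc.real (FCross a m b) * perc.real {ω | (fun i => DG (TF a m b) sF ω i) ∈ B} :=
  indepX_all (TF_disj hm.pos a b) sF (measurableSet_fcross ha hm hb) (inv_fcross ha hm hb) B hB

end Pool.Agent.H29.FE
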