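import Pool.Agent.H29.FE.Perc
import Pool.Graph.R_pool_sql_team_seeded_3dad9d7b.NH38.Fork.GMain
import Pool.Graph.R_pool_sql_team_seeded_3dad9d7b.NH38.Fork.R1
import Pool.Graph.R_pool_sql_team_seeded_3dad9d7b.NH38.Fork.R2
import Pool.Graph.R_pool_sql_team_seeded_3dad9d7b.NH38.Fork.R3
import Pool.Graph.R_pool_sql_team_seeded_3dad9d7b.NH38.Fork.R4
import Pool.Graph.R_pool_sql_team_seeded_3dad9d7b.NH38.Fork.R5
import Pool.Graph.R_pool_sql_team_seeded_3dad9d7b.NH38.Fork.R6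
import Pool.Graph.R_pool_sql_team_seeded_3dad9d7b.NH38.Fork.R7

/-!
The forked channels in layered environments: natural coordinates, all widths, the limits.
-/

set_option autoImplicit false

namespace Pool.Agent.H29.FE

open Pool.Agent.H988R2.Perc hiding X
open MeasureTheory ProbabilityTheory unitInterval Filter Topology
open Pool.Agent.H863R4
open Q292.Env (percP pHG Nondeg lay_hg elP_of elF_of percP_map)
open Pool.Agent.NH38.Fork (FCross FAdj ECross EAdj S_ExactG S_AsyG S_RateG S_OneG x1 x2 cR sv)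
open Pool.Agent.NH38.Fork.GF (sub lim_close lim_top)
open Pool.Agent.NH38.Step (cardy)

theorem fcross_preimage {a l : ℕ} (hl : a = 2 * l + 1) (k b : ℕ) :
    FCross a (2*k+1) b = (fun ω : Conf => fun i => ω ((sh (l + 1) (-l)).symm i)) ⁻¹'
      ECross a k b := by
  have hlz : (a:ℤ) = 2 * l + 1 := by exact_mod_cast hl
  have hstep : ∀ (ω : Conf) (x y : ℤ × ℤ), FAdj a (2*k+1) b ω x y ↔
      EAdj a k b (fun i => ω ((sh (l+1) (-l)).symm i)) (x.1 + (l+1), x.2 + (-l))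
        (y.1 + (l+1), y.2 + (-l)) := by
    intro ω x y
    unfold FAdj EAdj
    rw [openAdj_sh]
    simp only
    push_cast
    constructor
    · rintro ⟨e1, e2, e3, e4, e5, e6⟩
      exact ⟨e1, ⟨by omega, by omega⟩, ⟨by omega, by omega⟩, by omega⟩
    · rintro ⟨e1, ⟨e2, e3⟩, ⟨e4, e5⟩, e6⟩
      exact ⟨e1, by omega, by omega, by omega, by omega, by omega⟩
  ext ω
  constructor
  · rintro ⟨x, y, h1, h2, h3, h4⟩
    refine ⟨(x.1 + (l+1), x.2 + (-l)), (y.1 + (l+1), y.2 + (-l)), ?_, ?_, ?_, ?_⟩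
    · show x.1 + (l+1) - (x.2 + (-l)) = (a:ℤ); omega
    · show 1 ≤ x.1 + (l+1) + (x.2 + (-l)); omega
    · show y.1 + (l+1) - (y.2 + (-l)) = ((a+1+2*k+b : ℕ) : ℤ)
      push_cast at h3 ⊢
      omega
    · exact h4.lift (fun z : ℤ × ℤ => (z.1 + (l+1), z.2 + (-l))) fun p q hpq => (hstep ω p q).mp hpq
  · rintro ⟨x, y, h1, h2, h3, h4⟩
    refine ⟨(x.1 - (l+1), x.2 - (-l)), (y.1 - (l+1), y.2 - (-l)), ?_, ?_, ?_, ?_⟩
    · show x.1 - (l+1) - (x.2 - (-l)) = 0; omega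
    · show 0 ≤ x.1 - (l+1) + (x.2 - (-l)); omega
    · show y.1 - (l+1) - (y.2 - (-l)) = ((2*k+1+b : ℕ) : ℤ)
      push_cast at h3 ⊢
      omega
    · refine h4.lift (fun z : ℤ × ℤ => (z.1 - (l+1), z.2 - (-l))) fun p q hpq => ?_
      show FAdj a (2*k+1) b ω (p.1 - (l+1), p.2 - (-l)) (q.1 - (l+1), q.2 - (-l))
      rw [hstep]
      simpa using hpq

/-- **exact universality, odd widths** -/
theorem fcrossP_eq {h g : ℤ → I} (hn : Nondeg h g) {a m b : ℕ} (ha : Odd a) (hm : Odd m)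
    (hb : Odd b) : (percP (pHG h g)).real (FCross a m b) = perc.real (FCross a m b) := by
  obtain ⟨k, rfl⟩ := hm
  obtain ⟨l, hl⟩ := id ha
  have h1 := lay_hg (b := b+2*k) hl h g hn.h_pair hn.g_pair
  have h2 := percP_ecross h1 (elP_of hn.h_pair hn.h_down) (elF_of hn.h_pair hn.h_up)
    (elF_of hn.g_pair hn.g_up) ha hb
  rw [Pool.Agent.NH38.Fork.GF.cross_eq ha k b, ← h2, fcross_preimage hl k b]
  rw [← percP_map (sh (l + 1) (-l)) (fun i => pHG h g ((sh (l + 1) (-l)).symm i))]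
  simp only [Equiv.symm_apply_apply]

/-- **Cardy's formula in all environments, all widths** -/
theorem limP {h g : ℤ → I} (hn : Nondeg h g) (hE : S_ExactG) (hA : S_AsyG) {α γ β : ℝ}
    (hα : 0 < α) (hγ : 0 < γ) (hβ : 0 < β) (δ : ℕ → ℝ) (a m b : ℕ → ℕ)
    (hδ : ∀ n, 0 < δ n) (hδ0 : Tendsto δ atTop (𝓝 0))
    (ha : Tendsto (fun n => δ n * a n) atTop (𝓝 α))
    (hm : Tendsto (fun n => δ n * m n) atTop (𝓝 γ))
    (hb : Tendsto (fun n => δ n * b n) atTop (𝓝 β)) :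
    Tendsto (fun n => (percP (pHG h g)).real (FCross (a n) (m n) (b n))) atTop
      (𝓝 (cardy (x1 ((α/(α+γ+β))^2) ((β/(α+γ+β))^2)))) := by
  have a1 : Tendsto (fun n => δ n * ou (a n)) atTop (𝓝 α) := lim_close hδ hδ0 ha fun n => ou_dist _
  have a2 : Tendsto (fun n => δ n * od (a n)) atTop (𝓝 α) := lim_close hδ hδ0 ha fun n => od_dist _
  have m1 : Tendsto (fun n => δ n * ou (m n)) atTop (𝓝 γ) := lim_close hδ hδ0 hm fun n => ou_dist _
  have m2 : Tendsto (fun n => δ n * od (m n)) atTop (𝓝 γ) := lim_close hδ hδ0 hm fun n => od_dist _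
  have b1 : Tendsto (fun n => δ n * ou (b n)) atTop (𝓝 β) := lim_close hδ hδ0 hb fun n => ou_dist _
  have b2 : Tendsto (fun n => δ n * od (b n)) atTop (𝓝 β) := lim_close hδ hδ0 hb fun n => od_dist _
  have e1 := (lim_top hδ hδ0 hα ha).eventually_ge_atTop 1
  have e2 := (lim_top hδ hδ0 hγ hm).eventually_ge_atTop 1
  have e3 := (lim_top hδ hδ0 hβ hb).eventually_ge_atTop 1
  have L1 := Pool.Agent.NH38.Fork.GG.odd_lim hE hA hα hγ hβ hδ hδ0 (fun n => ou_odd (a n))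
    (fun n => od_odd (m n)) (fun n => od_odd (b n)) a1 m2 b2
  have L2 := Pool.Agent.NH38.Fork.GG.odd_lim hE hA hα hγ hβ hδ hδ0 (fun n => od_odd (a n))
    (fun n => ou_odd (m n)) (fun n => ou_odd (b n)) a2 m1 b1
  refine tendsto_of_tendsto_of_tendsto_of_le_of_le' L2 L1 ?_ ?_
  · filter_upwards [e1] with n h1
    rw [← fcrossP_eq hn (od_odd (a n)) (ou_odd (m n)) (ou_odd (b n))]
    refine measureReal_mono (sub (od_le ?_) (le_ou _) (add_le_add (le_ou _) (le_ou _)))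
    have : 1 ≤ a n := by exact_mod_cast h1
    omega
  · filter_upwards [e2, e3] with n h2 h3
    have g2 : 1 ≤ m n := by exact_mod_cast h2
    have g3 : 1 ≤ b n := by exact_mod_cast h3
    have g4 : od (m n) ≤ m n := od_le (by omega)
    have g5 : od (b n) ≤ b n := od_le (by omega)
    rw [← fcrossP_eq hn (ou_odd (a n)) (od_odd (m n)) (od_odd (b n))]
    exact measureReal_mono (sub (le_ou _) g4 (add_le_add g4 g5))

open Pool.Agent.NH38.Fork.R5 in
/-- **the sharp rate in all environments, all widths** -/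
theorem rateP {h g : ℤ → I} (hn : Nondeg h g) (hE : S_ExactG) (hR : S_RateG) {α γ β K : ℝ}
    (hα : 0 < α) (hγ : 0 < γ) (hβ : 0 < β) (δ : ℕ → ℝ) (a m b : ℕ → ℕ)
    (hδ : ∀ n, 0 < δ n) (hδ0 : Tendsto δ atTop (𝓝 0)) (ha : ∀ n, |δ n * a n - α| ≤ K * δ n)
    (hm : ∀ n, |δ n * m n - γ| ≤ K * δ n) (hb : ∀ n, |δ n * b n - β| ≤ K * δ n) :
    Tendsto (fun n => ((percP (pHG h g)).real (FCross (a n) (m n) (b n)) -
      cardy (x1 ((α/(α+γ+β))^2) ((β/(α+γ+β))^2))) / (δ n)^((2:ℝ)/3)) atTop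
      (𝓝 (cR * (x2 ((α/(α+γ+β))^2) ((β/(α+γ+β))^2) -
        x1 ((α/(α+γ+β))^2) ((β/(α+γ+β))^2))^(-(1:ℝ)/3) * (α+γ+β)^(-(2:ℝ)/3))) := by
  have a0 := lim_of hδ0 ha
  have m0 := lim_of hδ0 hm
  have b0 := lim_of hδ0 hb
  have a1 := close_of hδ ha fun n => ou_dist (a n)
  have a2 := close_of hδ ha fun n => od_dist (a n)
  have m1 := close_of hδ hm fun n => ou_dist (m n)
  have m2 := close_of hδ hm fun n => od_dist (m n)
  have b1 := close_of hδ hb fun n => ou_dist (b n)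
  have b2 := close_of hδ hb fun n => od_dist (b n)
  have e1 := (lim_top hδ hδ0 hα a0).eventually_ge_atTop 1
  have e2 := (lim_top hδ hδ0 hγ m0).eventually_ge_atTop 1
  have e3 := (lim_top hδ hδ0 hβ b0).eventually_ge_atTop 1
  have L1 := odd_rate hE hR hα hγ hβ hδ hδ0 (fun n => ou_odd (a n)) (fun n => od_odd (m n))
    (fun n => od_odd (b n)) a1 m2 b2
  have L2 := odd_rate hE hR hα hγ hβ hδ hδ0 (fun n => od_odd (a n)) (fun n => ou_odd (m n))
    (fun n => ou_odd (b n)) a2 m1 b1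
  refine tendsto_of_tendsto_of_tendsto_of_le_of_le' L2 L1 ?_ ?_
  · filter_upwards [e1] with n h1
    refine div_le_div_of_nonneg_right (sub_le_sub_right ?_ _)
      (Real.rpow_pos_of_pos (hδ n) _).le
    rw [← fcrossP_eq hn (od_odd (a n)) (ou_odd (m n)) (ou_odd (b n))]
    refine measureReal_mono (sub (od_le ?_) (le_ou _) (add_le_add (le_ou _) (le_ou _)))
    have : 1 ≤ a n := by exact_mod_cast h1
    omega
  · filter_upwards [e2, e3] with n h2 h3
    have g2 : 1 ≤ m n := by exact_mod_cast h2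
    have g3 : 1 ≤ b n := by exact_mod_cast h3
    have g4 : od (m n) ≤ m n := od_le (by omega)
    have g5 : od (b n) ≤ b n := od_le (by omega)
    refine div_le_div_of_nonneg_right (sub_le_sub_right ?_ _)
      (Real.rpow_pos_of_pos (hδ n) _).le
    rw [← fcrossP_eq hn (ou_odd (a n)) (od_odd (m n)) (od_odd (b n))]
    exact measureReal_mono (sub (le_ou _) g4 (add_le_add g4 g5))

open Pool.Agent.NH38.Fork.R6h in
/-- **the one-arm function at the corner in all environments** -/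
theorem oneP {h g : ℤ → I} (hn : Nondeg h g) (hE : S_ExactG) (hO : S_OneG) {a : ℕ} (ha : Odd a)
    {γ β : ℝ} (hγ : 0 < γ) (hβ : 0 ≤ β) (δ : ℕ → ℝ) (m b : ℕ → ℕ) (hδ : ∀ n, 0 < δ n)
    (hδ0 : Tendsto δ atTop (𝓝 0)) (hm : Tendsto (fun n => δ n * m n) atTop (𝓝 γ))
    (hb : Tendsto (fun n => δ n * b n) atTop (𝓝 β)) :
    Tendsto (fun n => (percP (pHG h g)).real (FCross a (m n) (b n)) / (δ n)^((2:ℝ)/3)) atTop
      (𝓝 ((((sv a).coeff 0 : ℚ) : ℝ) * cR * (γ * (γ + 2*β))^(-(1:ℝ)/3))) := by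
  have m1 : Tendsto (fun n => δ n * ou (m n)) atTop (𝓝 γ) := lim_close hδ hδ0 hm fun n => ou_dist _
  have m2 : Tendsto (fun n => δ n * ((m n - 1 : ℕ) : ℝ)) atTop (𝓝 γ) :=
    lim_close hδ hδ0 hm fun n => by
      rcases Nat.eq_zero_or_pos (m n) with h | h
      · rw [h]
        norm_num
      · rw [Nat.cast_sub h, Nat.cast_one, show (m n : ℝ) - 1 - m n = -1 by ring, abs_neg, abs_one]
  have m3 : Tendsto (fun n => δ n * od (m n - 1)) atTop (𝓝 γ) :=
    lim_close hδ hδ0 m2 fun n => od_dist _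
  have b1 : Tendsto (fun n => δ n * ou (b n)) atTop (𝓝 β) := lim_close hδ hδ0 hb fun n => ou_dist _
  have e1 := (lim_top hδ hδ0 hγ hm).eventually_ge_atTop 2
  have L1 := odd_one hE hO ha hγ hβ hδ hδ0 (fun n => od_odd (m n - 1)) (fun n => ou_odd (b n))
    m3 b1
  have L2 := odd_one hE hO ha hγ hβ hδ hδ0 (fun n => ou_odd (m n)) (fun n => ou_odd (b n))
    m1 b1
  refine tendsto_of_tendsto_of_tendsto_of_le_of_le' L2 L1 ?_ ?_
  · refine Eventually.of_forall fun n => ?_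
    have hδn : 0 < (δ n)^((2:ℝ)/3) := Real.rpow_pos_of_pos (hδ n) _
    refine div_le_div_of_nonneg_right ?_ hδn.le
    rw [← fcrossP_eq hn ha (ou_odd (m n)) (ou_odd (b n))]
    exact measureReal_mono (sub le_rfl (le_ou _) (add_le_add (le_ou _) (le_ou _)))
  · filter_upwards [e1] with n h1
    have g1 : 2 ≤ m n := by exact_mod_cast h1
    have hδn : 0 < (δ n)^((2:ℝ)/3) := Real.rpow_pos_of_pos (hδ n) _
    refine div_le_div_of_nonneg_right ?_ hδn.le
    have g2 : od (m n - 1) ≤ m n - 1 := od_le (by omega)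
    have g3 : ou (b n) ≤ b n + 1 := by unfold ou; split_ifs <;> omega
    rw [← fcrossP_eq hn ha (od_odd (m n - 1)) (ou_odd (b n))]
    exact measureReal_mono (sub le_rfl (by omega) (by omega))

end Pool.Agent.H29.FE
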