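import Pool.Agent.H29.EU.State
import Pool.Graph.R_pool_sql_team_seeded_3dad9d7b.NH38.Fork.P

/-!
The crossing event of the forked channel in layered environments.
-/

set_option autoImplicit false

namespace Pool.Agent.H29.FE

open Pool.Agent.H988R2.Perc Finset MeasureTheory ProbabilityTheory unitInterval Filter Topology
open Pool.Agent.H980R3.Slit
open Pool.Agent.H988R2.Perc.T23 (bits SS mem_SS)
open Q292.Env
open Pool.Agent.NH38.Fork (ECross)
open Pool.Agent.NH38.Fork.PP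
open Pool.Agent.H492C (comb)

/-- the pattern of the crossing event -/
def CF (a k b : ℕ) (R R1 R2 : St) : Prop := conn3 a (b+2*k) R R1 (comb k St.bot R2)

theorem p_eRk {a b k : ℕ} {p : Edge → I} {y0 y1 y2 : ℤ → I} (hp : Lay a (b+2*k) p y0 y1 y2)
    (ha : Odd a) (M : ℕ) (j : ℕ × ℕ) (hj : j ∈ SS b M) :
    (p (C08.eR (a+2*k) M j) : ℝ) = bp (cF y2 M (j.1 / 2)) j.2 := by
  rw [mem_SS] at hj
  unfold C08.eR bp cF
  rw [hp.right _ _ (by push_cast; omega) (by push_cast; omega) (by omega)]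
  have e1 : (2 * (M : ℤ) - 1 - j.1) / 2 = (M : ℤ) - 1 - ((j.1 / 2 : ℕ) : ℤ) := by omega
  rw [e1]
  have ha2 : a % 2 = 1 := Nat.odd_iff.mp ha
  have e2 : (((j.2 : ℤ) + (((a+2*k : ℕ) : ℤ) + 1)) % 2 = 1) ↔ (j.2 % 2 = 1) := by
    push_cast
    omega
  simp only [e2]

theorem percP_cellF {a b k : ℕ} {p : Edge → I} {y0 y1 y2 : ℤ → I} (hp : Lay a (b+2*k) p y0 y1 y2)
    (ha : Odd a) (M : ℕ) (p0 p1 p2 : Finset (ℕ × ℕ)) (h0 : p0 ⊆ SS (a+(b+2*k)+1) M)
    (h1 : p1 ⊆ SS a M) (h2 : p2 ⊆ SS b M) :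
    (percP p).real (cellF a k b M p0 p1 p2) = wt (cP y0 M) (SS (a+(b+2*k)+1) M) p0 *
      wt (cF y1 M) (SS a M) p1 * wt (cF y2 M) (SS b M) p2 := by
  rw [cellF_eq a k b M p0 p1 p2 h0 h1 h2, percP_cyl p _ (eeF_inj a k b M)]
  rw [Fintype.prod_sum_type, Fintype.prod_sum_type, wt_eq, wt_eq, wt_eq]
  congr 1
  · congr 1
    · refine Finset.prod_congr rfl fun j _ => ?_
      simp only [eeF, bbF]
      rw [p_eP hp M j.1 j.2]
      try congr
    · refine Finset.prod_congr rfl fun j _ => ?_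
      simp only [eeF, bbF]
      rw [p_eF hp M j.1 j.2]
      try congr
  · refine Finset.prod_congr rfl fun j _ => ?_
    simp only [eeF, bbF]
    rw [p_eRk hp ha M j.1 j.2]
    try congr

open Classical in
theorem sum_goodF' (a k b M : ℕ) (w0 w1 w2 : Finset (ℕ × ℕ) → ℂ) :
    (∑ t0 ∈ (SS (a+(b+2*k)+1) M).powerset, ∑ t1 ∈ (SS a M).powerset,
        ∑ t2 ∈ (SS b M).powerset,
        (if CF a k b (X (a+(b+2*k)+1) (actBit (bits t0)) M) (X a (actBit (bits t1)) M)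
          (X b (actBit (bits t2)) M) then w0 t0 * w1 t1 * w2 t2 else 0)) =
      ∑ p ∈ goodF a k b M, w0 p.1 * w1 p.2.1 * w2 p.2.2 := by
  unfold goodF
  rw [Finset.sum_filter, Finset.sum_product]
  refine Finset.sum_congr rfl fun t0 _ => ?_
  rw [Finset.sum_product]
  rfl

/-- the probability of the window event -/
theorem percP_winF {a b k : ℕ} {p : Edge → I} {y0 y1 y2 : ℤ → I} (hp : Lay a (b+2*k) p y0 y1 y2)
    (ha : Odd a) (M : ℕ) :
    (((percP p).real (WinF a k b M) : ℝ) : ℂ) =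
      EU.pairG (CF a k b) (lawY (a+(b+2*k)+1) (cP y0 M) M) (lawY a (cF y1 M) M)
        (lawY b (cF y2 M) M) := by
  rw [law_eqY, law_eqY, law_eqY, EU.pairG_sum, sum_goodF', winF_eq, measureReal_biUnion_finset]
  · push_cast
    refine Finset.sum_congr rfl fun p hp' => ?_
    obtain ⟨⟨h1, h2, h3⟩, _⟩ := mem_goodF.1 hp'
    rw [percP_cellF hp ha M _ _ _ h1 h2 h3]
    push_cast
    rfl
  · intro p _ p' _ hne
    rw [Function.onFun, Set.disjoint_left]
    rintro ω ⟨h1, h2, h3⟩ ⟨h4, h5, h6⟩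
    exact hne (Prod.ext (h1.symm.trans h4) (Prod.ext (h2.symm.trans h5) (h3.symm.trans h6)))
  · intro p hp'
    obtain ⟨⟨h1, h2, h3⟩, _⟩ := mem_goodF.1 hp'
    exact (cellF_prob a k b M p.1 p.2.1 p.2.2 h1 h2 h3).1

theorem winF_tendsto {a b k : ℕ} {p : Edge → I} {y0 y1 y2 : ℤ → I}
    (hp : Lay a (b+2*k) p y0 y1 y2) (h0 : ElP y0) (h1 : ElF y1) (h2 : ElF y2)
    (ha : Odd a) (hb : Odd b) :
    Tendsto (fun M => (((percP p).real (WinF a k b M) : ℝ) : ℂ)) atTop
      (𝓝 (EU.pairG (CF a k b) (sv (a+(b+2*k)+1)) (sv a) (sv b))) := by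
  have hL : Odd (a + (b+2*k) + 1) := (ha.add_odd (odd_b k hb)).add_one
  have cP01 : ∀ (y : ℤ → I) M j, cP y M j ∈ Set.Icc (0:ℝ) 1 := fun y M j => (y _).2
  have cF01 : ∀ (y : ℤ → I) M j, cF y M j ∈ Set.Icc (0:ℝ) 1 := fun y M j => (y _).2
  refine (EU.pairG_tendsto _
    (law_tendsto (a+(b+2*k)+1) hL (fun M => cP y0 M) (cP01 y0) (pastProd y0 h0 _))
    (law_tendsto a ha (fun M => cF y1 M) (cF01 y1) (futProd y1 h1 _))
    (law_tendsto b hb (fun M => cF y2 M) (cF01 y2) (futProd y2 h2 _))).congr fun M => ?_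
  rw [percP_winF hp ha M]

theorem measurableSet_winF (a k b M : ℕ) : MeasurableSet (WinF a k b M) := by
  rw [winF_eq]
  refine Finset.measurableSet_biUnion _ fun p hp => ?_
  obtain ⟨⟨h1, h2, h3⟩, _⟩ := mem_goodF.1 hp
  exact (cellF_prob a k b M p.1 p.2.1 p.2.2 h1 h2 h3).1

theorem measurableSet_ecross {a b : ℕ} (k : ℕ) (ha : Odd a) (hb : Odd b) :
    MeasurableSet (ECross a k b) := by
  rw [← iUnion_win k ha hb]
  exact MeasurableSet.iUnion fun M => measurableSet_winF _ _ _ M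

theorem ecross_lim {a b k : ℕ} {p : Edge → I} {y0 y1 y2 : ℤ → I}
    (hp : Lay a (b+2*k) p y0 y1 y2) (h0 : ElP y0) (h1 : ElF y1) (h2 : ElF y2)
    (ha : Odd a) (hb : Odd b) :
    (((percP p).real (ECross a k b) : ℝ) : ℂ) =
      EU.pairG (CF a k b) (sv (a+(b+2*k)+1)) (sv a) (sv b) := by
  have e1 : Tendsto (fun M => (percP p).real (WinF a k b M)) atTop
      (𝓝 ((percP p).real (ECross a k b))) := by
    have h1 : Tendsto (fun M => percP p (WinF a k b M)) atTop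
        (𝓝 (percP p (⋃ M, WinF a k b M))) := tendsto_measure_iUnion_atTop (win_mono k ha hb)
    rw [iUnion_win k ha hb] at h1
    exact (ENNReal.tendsto_toReal (measure_ne_top (percP p) _)).comp h1
  have e2 := (Complex.continuous_ofReal.tendsto _).comp e1
  exact tendsto_nhds_unique e2 (winF_tendsto hp h0 h1 h2 ha hb)

/-- **the crossing probability is the same in all layered environments** -/
theorem percP_ecross {a b k : ℕ} {p : Edge → I} {y0 y1 y2 : ℤ → I}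
    (hp : Lay a (b+2*k) p y0 y1 y2) (h0 : ElP y0) (h1 : ElF y1) (h2 : ElF y2)
    (ha : Odd a) (hb : Odd b) :
    (percP p).real (ECross a k b) = perc.real (ECross a k b) := by
  have e1 := ecross_lim hp h0 h1 h2 ha hb
  have e2 := ecross_lim (k := k) (EU.lay_half a (b+2*k)) EU.elP_half EU.elF_half EU.elF_half ha hb
  rw [← perc_eq_percP] at e2
  exact_mod_cast e1.trans e2.symm

end Pool.Agent.H29.FE
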